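import Pool.Agent.H190R3.WeiCard

/-!
# The set-cofinality of the Weihrauch degrees is `2 ^ 𝔠`

`Problem` is the type of multi-valued functions on Baire space (`sol x` is the set of solutions of
the instance `x`, the domain consists of the instances having a solution), preordered by Weihrauch
reducibility; the functionals are the ones induced by computable monotone word functions.
`Degree` is the associated partial order of Weihrauch degrees.

Every problem is reducible to a total single-valued one (choose a solution for every instance).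
If `h` is total and single-valued, then a total single-valued function `k` which is reducible to
`h` is determined by the two machines of the reduction, so there are only countably many such `k`.
Since there are `2 ^ 𝔠` total single-valued functions, each cofinal set of degrees has `2 ^ 𝔠`
elements.
-/

namespace Pool.Agent.Results.MP_62990a_lc.SetCofinality

open Set Cardinal Pool.Agent.H190R3.Wei

/-- The total single-valued problem given by a function on Baire space. -/
def ofFun (h : (ℕ → ℕ) → ℕ → ℕ) : Problem := ⟨fun x => {h x}⟩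

/-- Every problem is reducible to a total single-valued problem. -/
theorem exists_le_ofFun (g : Problem) : ∃ h, g ≤ ofFun h := by
  classical
  refine ⟨fun x => if hx : (g.sol x).Nonempty then hx.some else x, ?_⟩
  refine ⟨fun σ => σ, od, isMachine_id, isMachine_od, fun x hx => ⟨x, maps_id x, ?_, ?_⟩⟩
  · exact ⟨_, rfl⟩
  · intro z hz
    have hz' : z = if hx : (g.sol x).Nonempty then hx.some else x := hz
    rw [dif_pos hx] at hz'
    exact ⟨z, hz' ▸ hx.some_mem, maps_od x z⟩

/-- Only countably many total functions are reducible to a given total function. -/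
theorem countable_below (h : (ℕ → ℕ) → ℕ → ℕ) :
    {k : (ℕ → ℕ) → ℕ → ℕ | ofFun k ≤ ofFun h}.Countable := by
  have hex : ∀ k : {k : (ℕ → ℕ) → ℕ → ℕ | ofFun k ≤ ofFun h},
      ∃ m : {φ : List ℕ → List ℕ // IsMachine φ} × {φ : List ℕ → List ℕ // IsMachine φ},
        Red m.1.1 m.2.1 (ofFun k.1) (ofFun h) := by
    rintro ⟨k, φ, ψ, hφ, hψ, r⟩
    exact ⟨(⟨φ, hφ⟩, ⟨ψ, hψ⟩), r⟩
  choose m hm using hex
  have hinj : Function.Injective m := by
    intro k k' hkk
    apply Subtype.ext
    funext x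
    obtain ⟨y, hy, -, h1⟩ := hm k x ⟨_, rfl⟩
    obtain ⟨y', hy', -, h2⟩ := hm k' x ⟨_, rfl⟩
    rw [← hkk] at hy' h2
    obtain rfl := Maps.unique hy hy'
    obtain ⟨w, hw, hw1⟩ := h1 _ rfl
    obtain ⟨w', hw', hw1'⟩ := h2 _ rfl
    have e : w = w' := Maps.unique hw1 hw1'
    have e1 : w = k.1 x := hw
    have e2 : w' = k'.1 x := hw'
    rw [← e1, e, e2]
  have : Countable {k : (ℕ → ℕ) → ℕ → ℕ | ofFun k ≤ ofFun h} := hinj.countable
  exact this

theorem mk_fun : #((ℕ → ℕ) → ℕ → ℕ) = 2 ^ 𝔠 := by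
  rw [← Cardinal.power_def, mk_baire]
  exact Cardinal.power_self_eq Cardinal.aleph0_le_continuum

theorem mk_degree_le : #Degree ≤ 2 ^ 𝔠 := by
  have h1 : #Degree ≤ #Problem := Cardinal.mk_le_of_surjective
    (f := toAntisymmetrization (· ≤ ·)) (by
      intro d; exact ⟨ofAntisymmetrization (· ≤ ·) d, by simp⟩)
  have h2 : #Problem ≤ #((ℕ → ℕ) → Set (ℕ → ℕ)) :=
    Cardinal.mk_le_of_injective (f := Problem.sol) (fun f g h => Problem.ext h)
  have h3 : #((ℕ → ℕ) → Set (ℕ → ℕ)) = 2 ^ 𝔠 := by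
    rw [← Cardinal.power_def, Cardinal.mk_set, mk_baire, ← Cardinal.power_mul,
      Cardinal.mul_eq_self Cardinal.aleph0_le_continuum]
  exact (h1.trans h2).trans h3.le

theorem mk_of_cofinal {S : Set Degree} (hS : IsCofinal S) : #S = 2 ^ 𝔠 := by
  refine le_antisymm ((Cardinal.mk_set_le S).trans mk_degree_le) ?_
  -- for each degree in `S` a total function above it
  have h1 : ∀ s : S, ∃ h, ofAntisymmetrization (· ≤ ·) (s : Degree) ≤ ofFun h :=
    fun s => exists_le_ofFun _
  choose h hh using h1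
  have hcover : (univ : Set ((ℕ → ℕ) → ℕ → ℕ)) ⊆ ⋃ s : S, {k | ofFun k ≤ ofFun (h s)} := by
    intro k _
    obtain ⟨s, hs, hks⟩ := hS (toAntisymmetrization (· ≤ ·) (ofFun k))
    refine mem_iUnion.2 ⟨⟨s, hs⟩, ?_⟩
    refine le_trans ?_ (hh ⟨s, hs⟩)
    rw [← toAntisymmetrization_ofAntisymmetrization (· ≤ ·) s,
      toAntisymmetrization_le_toAntisymmetrization_iff] at hks
    exact hks
  by_contra hlt
  have hlt' : #S < 2 ^ 𝔠 := not_le.1 hlt
  have hle : #((ℕ → ℕ) → ℕ → ℕ) ≤ #S * ℵ₀ := by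
    calc #((ℕ → ℕ) → ℕ → ℕ) = #(univ : Set ((ℕ → ℕ) → ℕ → ℕ)) := Cardinal.mk_univ.symm
      _ ≤ #(⋃ s : S, {k | ofFun k ≤ ofFun (h s)} : Set _) := Cardinal.mk_le_mk_of_subset hcover
      _ ≤ Cardinal.sum fun s : S => #{k | ofFun k ≤ ofFun (h s)} := Cardinal.mk_iUnion_le_sum_mk
      _ ≤ Cardinal.sum fun _ : S => ℵ₀ :=
        Cardinal.sum_le_sum _ _ fun s => (countable_below (h s)).le_aleph0
      _ = #S * ℵ₀ := by simp
  rw [mk_fun] at hle
  have h2 : ℵ₀ < (2 : Cardinal.{0}) ^ 𝔠 :=
    (Cardinal.aleph0_le_continuum).trans_lt (Cardinal.cantor 𝔠)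
  exact absurd hle (not_le.2 (Cardinal.mul_lt_of_lt h2.le hlt' h2))

/-- **Full answer to Q1 (positive).** Every cofinal set of Weihrauch degrees has cardinality
`2 ^ 𝔠`, that is, the set-cofinality of the Weihrauch degrees is `2 ^ 𝔠`. -/
theorem result :
    -- Weihrauch reducibility, spelled out
    (∀ f g : Problem, f ≤ g ↔ ∃ φ ψ : List ℕ → List ℕ, IsMachine φ ∧ IsMachine ψ ∧
      ∀ x, (f.sol x).Nonempty → ∃ y, Maps φ x y ∧ (g.sol y).Nonempty ∧
        ∀ z ∈ g.sol y, ∃ w ∈ f.sol x, Maps ψ (pair x z) w) ∧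
    -- every cofinal set of degrees has cardinality `2 ^ 𝔠`
    (∀ S : Set Degree, (∀ a : Degree, ∃ b ∈ S, a ≤ b) → #S = 2 ^ 𝔠) ∧
    -- the set-cofinality
    Order.cof Degree = 2 ^ 𝔠 := by
  refine ⟨fun f g => Iff.rfl, fun S hS => mk_of_cofinal hS, ?_⟩
  apply le_antisymm
  · obtain ⟨S, hS, hS'⟩ := Order.exists_cof_eq Degree
    rw [← hS', mk_of_cofinal hS]
  · obtain ⟨S, hS, hS'⟩ := Order.exists_cof_eq Degree
    rw [← hS', mk_of_cofinal hS]

end Pool.Agent.Results.MP_62990a_lc.SetCofinality
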